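import Mathlib
import Pool.Agent.W258.FM.TameFin
import Pool.Agent.W2helper44.PT.Stm

/-!
# Project PT (MP_a3c811_ag, helper44), piece CYC: the image of the inertia group in a pro-`ℓ` image is
procyclic
-/

set_option autoImplicit false

namespace Pool.Agent.W2helper23.PT

open NumberField Filter Topology
open Pool.Agent.W569.FM Pool.Agent.W2helper44.PT

/-- every maximal ideal contains a prime number (as in `R703.FM.exists_prime_mem`) -/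
theorem exists_prime_mem {F : Type} [Field F] [CharZero F] (P : Ideal (OO F)) (hP : P.IsMaximal) :
    ∃ l : ℕ, l.Prime ∧ (l : OO F) ∈ P := by
  have hPp := hP.isPrime
  have h1 : (P.comap (algebraMap ℤ (OO F))).IsMaximal :=
    Ideal.isMaximal_comap_of_isIntegral_of_isMaximal P
  obtain ⟨g, hg⟩ := (IsPrincipalIdealRing.principal (P.comap (algebraMap ℤ (OO F)))).principal
  have hg0 : g ≠ 0 := by
    rintro rfl
    have h2 : P.comap (algebraMap ℤ (OO F)) = ⊥ := by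
      rw [hg]
      simp
    rw [h2] at h1
    exact Ring.ne_bot_of_isMaximal_of_not_isField h1 Int.not_isField rfl
  have hgm : g ∈ P.comap (algebraMap ℤ (OO F)) := by
    rw [hg]
    exact Submodule.mem_span_singleton_self g
  have hgp : (P.comap (algebraMap ℤ (OO F))).IsPrime := h1.isPrime
  have hpr : Prime g := by
    have h3 : (Ideal.span {g}).IsPrime := by
      have h4 : P.comap (algebraMap ℤ (OO F)) = Ideal.span {g} := hg
      rw [← h4]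
      exact hgp
    exact (Ideal.span_singleton_prime hg0).1 h3
  refine ⟨g.natAbs, Int.prime_iff_natAbs_prime.1 hpr, ?_⟩
  have h5 : (algebraMap ℤ (OO F)) g ∈ P := hgm
  have h6 : ((g.natAbs : ℤ) : OO F) ∈ P := by
    rcases Int.natAbs_eq g with h | h
    · rw [← h]
      simpa using h5
    · have h7 : ((g.natAbs : ℤ)) = -g := by omega
      rw [h7, Int.cast_neg]
      exact P.neg_mem (by simpa using h5)
  simpa using h6

section

variable {K : Type} [Field K]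

/-- the inertia elements in `H` -/
def IH (H : Subgroup (GF K)) (P : Ideal (OO K)) : Subgroup (GF K) where
  carrier := {τ | τ ∈ H ∧ InInertia P τ}
  mul_mem' := by
    rintro a b ⟨ha, ha'⟩ ⟨hb, hb'⟩
    refine ⟨H.mul_mem ha hb, fun x => ?_⟩
    have h1 : (a * b) • x - x = (a • (b • x) - b • x) + (b • x - x) := by
      rw [mul_smul]
      ring
    rw [h1]
    exact P.add_mem (ha' _) (hb' _)
  one_mem' := ⟨H.one_mem, fun x => by simp⟩
  inv_mem' := by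
    rintro a ⟨ha, ha'⟩
    refine ⟨H.inv_mem ha, fun x => ?_⟩
    have h1 : a⁻¹ • x - x = -(a • (a⁻¹ • x) - a⁻¹ • x) := by
      rw [smul_inv_smul]
      ring
    rw [h1]
    exact P.neg_mem (ha' _)

theorem mem_IH {H : Subgroup (GF K)} {P : Ideal (OO K)} {τ : GF K} :
    τ ∈ IH H P ↔ τ ∈ H ∧ InInertia P τ := Iff.rfl

/-- the finite level -/
theorem fin_level [NumberField K] {ℓ : ℕ} (hℓ : ℓ.Prime) (W : Subgroup (GF K)) (hWn : W.Normal)
    (hWo : IsOpen (W : Set (GF K))) (H : Subgroup (GF K))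
    (hpow : ∀ x ∈ H, ∃ k : ℕ, x ^ (ℓ ^ k) ∈ W) (P : Ideal (OO K)) (hP : P.IsMaximal)
    (hℓP : (ℓ : OO K) ∉ P) :
    ∃ g ∈ IH H P, ∀ τ ∈ IH H P, ∃ a : ℤ, τ * (g ^ a)⁻¹ ∈ W := by
  classical
  obtain ⟨L, hL⟩ : ∃ L : IntermediateField K (AlgebraicClosure K), L.fixingSubgroup = W := by
    have hWc : IsClosed (W : Set (GF K)) := Subgroup.isClosed_of_isOpen W hWo
    exact ⟨_, InfiniteGalois.fixingSubgroup_fixedField ⟨W, hWc⟩⟩
  have hfd : FiniteDimensional K L := by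
    rw [← InfiniteGalois.isOpen_iff_finite, hL]
    exact hWo
  have hgal : IsGalois K L := by
    rw [← InfiniteGalois.normal_iff_isGalois, hL]
    exact hWn
  have hnf : NumberField L := NumberField.of_module_finite K L
  obtain ⟨r, hr⟩ : ∃ r : GF K →* Gal(L/K), r = AlgEquiv.restrictNormalHom L := ⟨_, rfl⟩
  have hrk : r.ker = W := by
    rw [hr, IntermediateField.restrictNormalHom_ker, hL]
  obtain ⟨φ, hφ⟩ : ∃ φ : 𝓞 L →+* OO K, φ = algebraMap (𝓞 L) (OO K) := ⟨_, rfl⟩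
  have hcomm : ∀ (τ : GF K) (x : 𝓞 L), φ (r τ • x) = τ • φ x := by
    intro τ x
    subst hr hφ
    apply RingOfIntegers.ext
    exact AlgEquiv.restrictNormal_commutes τ L (x : L)
  obtain ⟨P0, hP0⟩ : ∃ P0 : Ideal (𝓞 L), P0 = P.comap φ := ⟨_, rfl⟩
  have hP0p : P0.IsPrime := by
    have := hP.isPrime
    rw [hP0]
    exact Ideal.comap_isPrime φ P
  obtain ⟨l, hl, hlP⟩ := exists_prime_mem P hP
  have hP0b : P0 ≠ ⊥ := by
    intro h
    have h1 : (l : 𝓞 L) ∈ P0 := by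
      rw [hP0, Ideal.mem_comap, map_natCast]
      exact hlP
    rw [h, Ideal.mem_bot] at h1
    exact hl.ne_zero (by exact_mod_cast h1)
  have hmax : P0.IsMaximal := hP0p.isMaximal hP0b
  have hpg : IsPGroup ℓ (H.map r) := by
    rintro ⟨_, x, hx, rfl⟩
    obtain ⟨k, hk⟩ := hpow x hx
    refine ⟨k, Subtype.ext ?_⟩
    show r x ^ (ℓ ^ k) = 1
    rw [← map_pow, ← MonoidHom.mem_ker, hrk]
    exact hk
  have hfact : Fact ℓ.Prime := ⟨hℓ⟩
  obtain ⟨k, hk⟩ := (IsPGroup.iff_card (p := ℓ) (G := H.map r)).1 hpg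
  have hN : ((ℓ ^ k : ℕ) : 𝓞 L) ∉ P0 := by
    intro h
    push_cast at h
    have h1 : (ℓ : 𝓞 L) ∈ P0 := hP0p.mem_of_pow_mem k h
    rw [hP0, Ideal.mem_comap, map_natCast] at h1
    exact hℓP h1
  have hGN : ∀ g : H.map r, g ^ (ℓ ^ k) = 1 := by
    intro g
    rw [← hk]
    exact pow_card_eq_one'
  have hfaith : FaithfulSMul (H.map r) (𝓞 L) := by
    refine ⟨?_⟩
    intro a b hab
    apply Subtype.ext
    ext x
    obtain ⟨y, z, hz, rfl⟩ := IsFractionRing.div_surjective (A := 𝓞 L) x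
    have ey : (a : Gal(L/K)) (algebraMap (𝓞 L) L y) = (b : Gal(L/K)) (algebraMap (𝓞 L) L y) :=
      congrArg (algebraMap (𝓞 L) L) (hab y)
    have ez : (a : Gal(L/K)) (algebraMap (𝓞 L) L z) = (b : Gal(L/K)) (algebraMap (𝓞 L) L z) :=
      congrArg (algebraMap (𝓞 L) L) (hab z)
    rw [map_div₀, map_div₀, ey, ez]
  obtain ⟨t₀, ht₀, ht⟩ := Pool.Agent.W258.FM.tame_cyclic (R := 𝓞 L) (G := H.map r) hmax hP0b hN hGN
  -- the image of the inertia group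
  have hsub : (IH H P).map r ≤ Subgroup.zpowers (t₀ : Gal(L/K)) := by
    rintro _ ⟨τ, hτ, rfl⟩
    have h1 : (⟨r τ, τ, hτ.1, rfl⟩ : H.map r) ∈ Subgroup.zpowers t₀ := by
      apply ht
      intro x
      rw [hP0, Ideal.mem_comap, map_sub]
      have h2 : φ ((⟨r τ, τ, hτ.1, rfl⟩ : H.map r) • x) = τ • φ x := hcomm τ x
      rw [h2]
      exact hτ.2 (φ x)
    obtain ⟨m, hm⟩ := Subgroup.mem_zpowers_iff.1 h1
    exact Subgroup.mem_zpowers_iff.2 ⟨m, congrArg Subtype.val hm⟩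
  have hcyc : IsCyclic ((IH H P).map r) :=
    isCyclic_of_injective (Subgroup.inclusion hsub) (Subgroup.inclusion_injective hsub)
  obtain ⟨⟨_, g, hg, rfl⟩, hgen⟩ := IsCyclic.exists_generator (α := (IH H P).map r)
  refine ⟨g, hg, fun τ hτ => ?_⟩
  obtain ⟨a, ha⟩ := Subgroup.mem_zpowers_iff.1 (hgen ⟨r τ, τ, hτ, rfl⟩)
  refine ⟨a, ?_⟩
  rw [← hrk, MonoidHom.mem_ker, map_mul, map_inv, map_zpow]
  have h1 : r g ^ a = r τ := congrArg Subtype.val ha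
  rw [h1, mul_inv_cancel]

end

section

/-- the group theory: a lift of a generator at one nontrivial level generates at every finer level -/
theorem grp_lift {G : Type*} [Group G] {ℓ : ℕ} (hℓ : ℓ.Prime) (I W₀ W' : Subgroup G) [W₀.Normal]
    [W'.Normal] (hle : W' ≤ W₀) (hpow : ∀ x ∈ I, ∃ k : ℕ, x ^ (ℓ ^ k) ∈ W')
    {g₀ : G} (hg₀ : g₀ ∈ I) (h₀ : ∀ τ ∈ I, ∃ a : ℤ, τ * (g₀ ^ a)⁻¹ ∈ W₀)
    {g : G} (hg : g ∈ I) (h' : ∀ τ ∈ I, ∃ a : ℤ, τ * (g ^ a)⁻¹ ∈ W')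
    (hne : g₀ ∉ W₀) : ∀ τ ∈ I, ∃ j : ℕ, τ * (g₀ ^ j)⁻¹ ∈ W' := by
  have e0 : ∀ x y : G, x * y⁻¹ ∈ W₀ ↔ (x : G ⧸ W₀) = (y : G ⧸ W₀) := by
    intro x y
    rw [← QuotientGroup.eq_one_iff, QuotientGroup.mk_mul, QuotientGroup.mk_inv, mul_inv_eq_one]
  have e' : ∀ x y : G, x * y⁻¹ ∈ W' ↔ (x : G ⧸ W') = (y : G ⧸ W') := by
    intro x y
    rw [← QuotientGroup.eq_one_iff, QuotientGroup.mk_mul, QuotientGroup.mk_inv, mul_inv_eq_one]
  obtain ⟨a, ha⟩ := h' g₀ hg₀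
  have ha0 : g₀ * (g ^ a)⁻¹ ∈ W₀ := hle ha
  obtain ⟨c, hc⟩ := h₀ g hg
  obtain ⟨k, hk⟩ := hpow g₀ hg₀
  obtain ⟨k', hk'⟩ := hpow g hg
  have hpr : Prime (ℓ : ℤ) := Nat.prime_iff_prime_int.1 hℓ
  have hla : ¬ (ℓ : ℤ) ∣ a := by
    rintro ⟨b, rfl⟩
    apply hne
    rw [e0, QuotientGroup.mk_zpow] at ha0 hc
    have h1 : (g₀ : G ⧸ W₀) ^ (1 - c * (ℓ * b)) = 1 := by
      rw [zpow_sub, zpow_one, zpow_mul, ← hc, ← ha0, mul_inv_cancel]
    have h2 : (g₀ : G ⧸ W₀) ^ ((ℓ : ℤ) ^ k) = 1 := by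
      have h3 : ((g₀ ^ (ℓ ^ k) : G) : G ⧸ W₀) = 1 := (QuotientGroup.eq_one_iff _).2 (hle hk)
      rw [QuotientGroup.mk_pow] at h3
      rw [← h3, ← zpow_natCast]
      push_cast
      rfl
    have hco : IsCoprime (1 - c * (ℓ * b)) ((ℓ : ℤ) ^ k) := by
      apply IsCoprime.pow_right
      exact ⟨1, c * b, by ring⟩
    obtain ⟨u, v, huv⟩ := hco
    rw [← QuotientGroup.eq_one_iff]
    calc (g₀ : G ⧸ W₀) = (g₀ : G ⧸ W₀) ^ (u * (1 - c * (ℓ * b)) + v * (ℓ : ℤ) ^ k) := by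
          rw [huv, zpow_one]
      _ = 1 := by
          rw [zpow_add, mul_comm u, mul_comm v, zpow_mul, zpow_mul, h1, h2, one_zpow, one_zpow,
            one_mul]
  have hco : IsCoprime a ((ℓ : ℤ) ^ k') := by
    apply IsCoprime.pow_right
    exact ((Prime.coprime_iff_not_dvd hpr).2 hla).symm
  obtain ⟨u, v, huv⟩ := hco
  have h2 : (g : G ⧸ W') ^ ((ℓ : ℤ) ^ k') = 1 := by
    have h3 : ((g ^ (ℓ ^ k') : G) : G ⧸ W') = 1 := (QuotientGroup.eq_one_iff _).2 hk'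
    rw [QuotientGroup.mk_pow] at h3
    rw [← h3, ← zpow_natCast]
    push_cast
    rfl
  rw [e', QuotientGroup.mk_zpow] at ha
  have h3 : (g : G ⧸ W') = (g₀ : G ⧸ W') ^ u := by
    rw [ha, ← zpow_mul]
    calc (g : G ⧸ W') = (g : G ⧸ W') ^ (u * a + v * (ℓ : ℤ) ^ k') := by rw [huv, zpow_one]
      _ = (g : G ⧸ W') ^ (a * u) := by
          rw [zpow_add, mul_comm v, zpow_mul (g : G ⧸ W') ((ℓ : ℤ) ^ k'), h2, one_zpow, mul_one,
            mul_comm u]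
  intro τ hτ
  obtain ⟨m, hm⟩ := h' τ hτ
  rw [e', QuotientGroup.mk_zpow, h3, ← zpow_mul] at hm
  have h4 : (g₀ : G ⧸ W') ^ (ℓ ^ k) = 1 := by
    rw [← QuotientGroup.mk_pow]
    exact (QuotientGroup.eq_one_iff _).2 hk
  have hl0 : (0 : ℤ) < ((ℓ ^ k : ℕ) : ℤ) := by exact_mod_cast pow_pos hℓ.pos k
  refine ⟨((u * m) % ((ℓ ^ k : ℕ) : ℤ)).toNat, ?_⟩
  rw [e', QuotientGroup.mk_pow, hm, ← zpow_natCast, Int.toNat_of_nonneg (Int.emod_nonneg _ hl0.ne')]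
  conv_lhs => rw [← Int.mul_ediv_add_emod (u * m) ((ℓ ^ k : ℕ) : ℤ)]
  rw [zpow_add, zpow_mul, zpow_natCast, h4, one_zpow, one_mul]

end

theorem p_cyc : P_CYC := by
  intro K _ _ ℓ _ n ρ hρ H hHn hHo hU P hP hℓP
  classical
  have hℓ : ℓ.Prime := Fact.out
  have hpow : ∀ W : Subgroup (GF K), IsOpen (W : Set (GF K)) → ρ.ker ≤ W →
      ∀ x ∈ H, ∃ k : ℕ, x ^ (ℓ ^ k) ∈ W := by
    intro W hWo hWk x hx
    have hcomp : IsClosed (ρ '' (W : Set (GF K))ᶜ) :=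
      (hWo.isClosed_compl.isCompact.image hρ).isClosed
    have h2 : (1 : Matrix (Fin n) (Fin n) ℚ_[ℓ]) ∉ ρ '' (W : Set (GF K))ᶜ := by
      rintro ⟨y, hy, hy1⟩
      exact hy (hWk hy1)
    have h3 := (hU x hx).eventually (hcomp.isOpen_compl.mem_nhds h2)
    obtain ⟨k, hk⟩ := h3.exists
    refine ⟨k, ?_⟩
    by_contra hcon
    exact hk ⟨x ^ (ℓ ^ k), hcon, map_pow ρ x _⟩
  -- a generator at all levels
  have key : ∃ τ₀ ∈ IH H P, ∀ W : Subgroup (GF K), W.Normal → IsOpen (W : Set (GF K)) →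
      ρ.ker ≤ W → ∀ τ ∈ IH H P, ∃ j : ℕ, τ * (τ₀ ^ j)⁻¹ ∈ W := by
    by_cases h : ∀ W : Subgroup (GF K), W.Normal → IsOpen (W : Set (GF K)) →
      ρ.ker ≤ W → ∀ τ ∈ IH H P, τ ∈ W
    · refine ⟨1, (IH H P).one_mem, fun W h1 h2 h3 τ hτ => ⟨0, ?_⟩⟩
      rw [pow_zero, inv_one, mul_one]
      exact h W h1 h2 h3 τ hτ
    · push Not at h
      obtain ⟨W₀, hn₀, ho₀, hk₀, τ₁, hτ₁, hτW⟩ := h
      obtain ⟨g₀, hg₀, h₀⟩ := fin_level hℓ W₀ hn₀ ho₀ H (hpow W₀ ho₀ hk₀) P hP hℓP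
      have hne : g₀ ∉ W₀ := by
        intro hg
        apply hτW
        obtain ⟨a, ha⟩ := h₀ τ₁ hτ₁
        have h1 := W₀.mul_mem ha (W₀.zpow_mem hg a)
        rwa [inv_mul_cancel_right] at h1
      refine ⟨g₀, hg₀, fun W h1 h2 h3 => ?_⟩
      have hn' : (W ⊓ W₀).Normal := inferInstance
      have ho' : IsOpen ((W ⊓ W₀ : Subgroup (GF K)) : Set (GF K)) := by
        rw [Subgroup.coe_inf]
        exact h2.inter ho₀
      have hk' : ρ.ker ≤ W ⊓ W₀ := le_inf h3 hk₀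
      obtain ⟨g, hg, h'⟩ := fin_level hℓ (W ⊓ W₀) hn' ho' H (hpow _ ho' hk') P hP hℓP
      intro τ hτ
      obtain ⟨j, hj⟩ := grp_lift hℓ (IH H P) W₀ (W ⊓ W₀) inf_le_right
        (fun x hx => hpow _ ho' hk' x hx.1) hg₀ h₀ hg h' hne τ hτ
      exact ⟨j, hj.1⟩
  obtain ⟨τ₀, hτ₀, hgen⟩ := key
  refine ⟨τ₀, hτ₀.1, hτ₀.2, fun τ hτH hτ => ?_⟩
  rw [mem_closure_iff_nhds]
  intro V hV
  have h1 : (fun u => ρ (τ * u)) ⁻¹' V ∈ 𝓝 (1 : GF K) := by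
    have h2 : Continuous fun u : GF K => ρ (τ * u) := hρ.comp (continuous_const.mul continuous_id)
    apply h2.continuousAt
    show V ∈ 𝓝 (ρ (τ * 1))
    rwa [mul_one]
  obtain ⟨s, hs1, hs2, hs3⟩ := mem_nhds_iff.1 h1
  obtain ⟨U, hUs⟩ := ProfiniteGrp.exist_openNormalSubgroup_sub_open_nhds_of_one hs2 hs3
  have hUn : (U : Subgroup (GF K)).Normal := U.isNormal'
  have hUo : IsOpen (((U : Subgroup (GF K)) : Subgroup (GF K)) : Set (GF K)) := U.isOpen'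
  have hWo : IsOpen ((ρ.ker ⊔ (U : Subgroup (GF K)) : Subgroup (GF K)) : Set (GF K)) :=
    Subgroup.isOpen_mono le_sup_right hUo
  have hWn : (ρ.ker ⊔ (U : Subgroup (GF K))).Normal := Subgroup.sup_normal _ _
  obtain ⟨j, hj⟩ := hgen _ hWn hWo le_sup_left τ ⟨hτH, hτ⟩
  have h3 : τ⁻¹ * τ₀ ^ j ∈ ρ.ker ⊔ (U : Subgroup (GF K)) := by
    have h4 := hWn.conj_mem _ (Subgroup.inv_mem _ hj) τ⁻¹
    have h5 : τ⁻¹ * (τ * (τ₀ ^ j)⁻¹)⁻¹ * τ⁻¹⁻¹ = τ⁻¹ * τ₀ ^ j := by group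
    rwa [h5] at h4
  obtain ⟨a, ha, u, hu, hau⟩ := Subgroup.mem_sup_of_normal_right.1 h3
  refine ⟨ρ τ₀ ^ j, ?_, j, rfl⟩
  have h6 : τ₀ ^ j = τ * (a * u) := by
    rw [hau, mul_inv_cancel_left]
  have h7 : ρ τ₀ ^ j = ρ (τ * u) := by
    rw [← map_pow, h6, map_mul, map_mul, map_mul, MonoidHom.mem_ker.1 ha, one_mul]
  rw [h7]
  exact hs1 (hUs hu)

end Pool.Agent.W2helper23.PT
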